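import Pool.Agent.Helper53.UR.Par
import Pool.Agent.Helper16.BR.ASY

/-!
# PROJECT UR: packet ASU (the parameters for large `n`)
-/

set_option autoImplicit false

namespace Pool.Agent.Helper16.UR

open Pool.Agent.Helper65.LinSpace Pool.Agent.Helper78.Mpc Pool.Agent.Helper28.Ram Filter
open Pool.Agent.Helper28.Long (ZL)
open Pool.Agent.Helper65.BR (Mach BM prm bT lT)
open Pool.Agent.Helper53.UR

/-- the real inequalities -/
theorem realsU {K n u l s a x : ℝ} (hK : 1 ≤ K) (hu : 1000000 * K ≤ u) (hul : u ≤ l)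
    (hs : 0 ≤ s) (ha : 0 ≤ a) (hx : 0 ≤ x)
    (h1 : x * (a + 1) * l ^ 4 ≤ 4 * K * n ^ 2) (h2 : s * l ^ 4 ≤ 2 * K * n)
    (h3 : a * l ^ 4 ≤ 2 * K * n) (h4 : l ^ 4 ≤ 2 * K * n) :
    1000000 ≤ l ∧ (2 * (s + 1) + 1) * (4 * l ^ 2) ≤ n ∧ (2 * (a + 1) + 1) * (4 * l ^ 2) ≤ n ∧
      (l + 3) * (4 * l ^ 2) ≤ n ∧ 64 * (x * (a + 1) * l ^ 3) ≤ n ^ 2 := by
  have hl : 1000000 * K ≤ l := hu.trans hul
  have hl1 : 1000000 ≤ l := by nlinarith
  have hl0 : 0 < l := by linarith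
  have l3 : 1000000 * l ^ 3 ≤ 2 * n := by
    have e1 : (1000000 * K) * l ^ 3 ≤ l * l ^ 3 :=
      mul_le_mul_of_nonneg_right hl (by positivity)
    have e2 : l * l ^ 3 = l ^ 4 := by ring
    have e3 : K * (1000000 * l ^ 3) ≤ K * (2 * n) := by linarith
    exact le_of_mul_le_mul_left e3 (by linarith)
  have l2 : 1000000 * l ^ 2 ≤ l ^ 3 := by
    have e1 : 1000000 * l ^ 2 ≤ l * l ^ 2 := mul_le_mul_of_nonneg_right hl1 (by positivity)
    have e2 : l * l ^ 2 = l ^ 3 := by ring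
    linarith
  have hn0 : 0 ≤ n := by
    have : 0 < l ^ 3 := by positivity
    linarith
  have as2 : ∀ v : ℝ, 0 ≤ v → v * l ^ 4 ≤ 2 * K * n → 1000000 * (v * l ^ 2) ≤ 2 * n := by
    intro v hv h
    have e1 : (v * l ^ 3) * (1000000 * K) ≤ (v * l ^ 3) * l :=
      mul_le_mul_of_nonneg_left hl (by positivity)
    have e2 : (v * l ^ 3) * l = v * l ^ 4 := by ring
    have e3 : K * (1000000 * (v * l ^ 3)) ≤ K * (2 * n) := by linarith
    have e4 : 1000000 * (v * l ^ 3) ≤ 2 * n := le_of_mul_le_mul_left e3 (by linarith)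
    have e5 : (v * l ^ 2) * 1 ≤ (v * l ^ 2) * l :=
      mul_le_mul_of_nonneg_left (by linarith) (by positivity)
    have e6 : (v * l ^ 2) * l = v * l ^ 3 := by ring
    linarith
  have s2 := as2 s hs h2
  have a2 := as2 a ha h3
  refine ⟨hl1, ?_, ?_, ?_, ?_⟩
  · have : (2 * (s + 1) + 1) * (4 * l ^ 2) = 8 * (s * l ^ 2) + 12 * l ^ 2 := by ring
    rw [this]
    linarith
  · have : (2 * (a + 1) + 1) * (4 * l ^ 2) = 8 * (a * l ^ 2) + 12 * l ^ 2 := by ring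
    rw [this]
    linarith
  · have : (l + 3) * (4 * l ^ 2) = 4 * l ^ 3 + 12 * l ^ 2 := by ring
    rw [this]
    linarith
  · have e1 : (x * (a + 1) * l ^ 3) * (1000000 * K) ≤ (x * (a + 1) * l ^ 3) * l :=
      mul_le_mul_of_nonneg_left hl (by positivity)
    have e2 : (x * (a + 1) * l ^ 3) * l = x * (a + 1) * l ^ 4 := by ring
    have e3 : K * (1000000 * (x * (a + 1) * l ^ 3)) ≤ K * (4 * n ^ 2) := by linarith
    have e4 : 1000000 * (x * (a + 1) * l ^ 3) ≤ 4 * n ^ 2 :=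
      le_of_mul_le_mul_left e3 (by linarith)
    have e5 : 0 ≤ n ^ 2 := by positivity
    linarith

theorem gASU : GoalASU := by
  intro C
  obtain ⟨K, hK⟩ : ∃ K : ℝ, K = max C 1 := ⟨_, rfl⟩
  have hK1 : 1 ≤ K := hK ▸ le_max_right _ _
  have hCK : C ≤ K := hK ▸ le_max_left _ _
  obtain ⟨k1, hk1⟩ := exists_nat_gt (1000000 * K)
  filter_upwards [Pool.Agent.Helper28.Long.le_ZL C, ev_ll_ge k1, eventually_ge_atTop 1] with
    n hZ hu hn x s m a hs hx hsa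
  have hn1 : (1 : ℝ) ≤ n := by exact_mod_cast hn
  have hlog : ((ll n : ℕ) : ℝ) = (Nat.log 2 n : ℝ) + 1 := by
    unfold ll
    push_cast
    ring
  obtain ⟨u, hu'⟩ : ∃ u : ℕ, u = ll n := ⟨_, rfl⟩
  obtain ⟨l, hl⟩ : ∃ l : ℕ, l = m + u := ⟨_, rfl⟩
  have hlr : (l : ℝ) = (m : ℝ) + ((Nat.log 2 n : ℝ) + 1) := by
    rw [hl, hu', Nat.cast_add, hlog]
  rw [← hlr] at hx hsa
  rw [← hlog, ← hu'] at hZ
  rw [← hu'] at hu
  have hur : 1000000 * K ≤ (u : ℝ) := hk1.le.trans (by exact_mod_cast hu)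
  have hu1 : (1 : ℝ) ≤ u := by linarith
  have hul : (u : ℝ) ≤ l := by
    rw [hl]
    push_cast
    have : (0 : ℝ) ≤ m := Nat.cast_nonneg _
    linarith
  have hl1 : (1 : ℝ) ≤ l := hu1.trans hul
  have hs1 : (1 : ℝ) ≤ s := by exact_mod_cast hs
  have ha0 : (0 : ℝ) ≤ a := Nat.cast_nonneg _
  have hx0 : (0 : ℝ) ≤ x := Nat.cast_nonneg _
  have hm0 : (0 : ℝ) ≤ m := Nat.cast_nonneg _
  have hl4 : (0 : ℝ) < (l : ℝ) ^ 4 := by positivity
  have hC2 : C * ((n : ℝ) + 1) ≤ 2 * K * n := by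
    have e1 : C * ((n : ℝ) + 1) ≤ K * ((n : ℝ) + 1) :=
      mul_le_mul_of_nonneg_right hCK (by linarith)
    have e2 : K * ((n : ℝ) + 1) ≤ K * (2 * n) := mul_le_mul_of_nonneg_left (by linarith) (by linarith)
    linarith
  have hC3 : C * ((n : ℝ) + 1) ^ 2 ≤ 4 * K * n ^ 2 := by
    have e1 : C * ((n : ℝ) + 1) ^ 2 ≤ K * ((n : ℝ) + 1) ^ 2 :=
      mul_le_mul_of_nonneg_right hCK (by positivity)
    have e2 : ((n : ℝ) + 1) ^ 2 ≤ (2 * n) ^ 2 := pow_le_pow_left₀ (by linarith) (by linarith) 2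
    have e3 : K * ((n : ℝ) + 1) ^ 2 ≤ K * (2 * n) ^ 2 := mul_le_mul_of_nonneg_left e2 (by linarith)
    have e4 : K * (2 * (n : ℝ)) ^ 2 = 4 * K * n ^ 2 := by ring
    linarith
  have g2 : (s : ℝ) * l ^ 4 ≤ C * ((n : ℝ) + 1) := by
    have : (s : ℝ) * l ^ 4 ≤ ((s : ℝ) + a) * l ^ 4 :=
      mul_le_mul_of_nonneg_right (by linarith) hl4.le
    linarith
  have g3 : (a : ℝ) * l ^ 4 ≤ C * ((n : ℝ) + 1) := by
    have : (a : ℝ) * l ^ 4 ≤ ((s : ℝ) + a) * l ^ 4 :=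
      mul_le_mul_of_nonneg_right (by linarith) hl4.le
    linarith
  have g4 : (l : ℝ) ^ 4 ≤ C * ((n : ℝ) + 1) := by
    have : 1 * (l : ℝ) ^ 4 ≤ s * l ^ 4 := mul_le_mul_of_nonneg_right hs1 hl4.le
    linarith
  -- the bounds by `ZL`
  have hu2 : (u : ℝ) ^ 2 ≤ (l : ℝ) ^ 2 := pow_le_pow_left₀ (by linarith) hul 2
  have hl2 : (l : ℝ) ^ 2 ≤ (l : ℝ) ^ 4 := pow_le_pow_right₀ hl1 (by norm_num)
  have hl3 : (l : ℝ) ^ 3 ≤ (l : ℝ) ^ 4 := pow_le_pow_right₀ hl1 (by norm_num)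
  have zs : s ≤ ZL n := by
    refine hZ s ?_
    rw [le_div_iff₀ (by positivity)]
    have := mul_le_mul_of_nonneg_left (hu2.trans hl2) (by linarith : (0 : ℝ) ≤ s)
    linarith
  have za : a ≤ ZL n := by
    refine hZ a ?_
    rw [le_div_iff₀ (by positivity)]
    have := mul_le_mul_of_nonneg_left (hu2.trans hl2) ha0
    linarith
  have hml : (m : ℝ) ≤ l := by
    rw [hl]
    push_cast
    linarith
  have zm : m ≤ ZL n := by
    refine hZ m ?_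
    rw [le_div_iff₀ (by positivity)]
    have e2 : (m : ℝ) * u ^ 2 ≤ l * l ^ 2 := mul_le_mul hml hu2 (by positivity) (by linarith)
    have e3 : (l : ℝ) * l ^ 2 = l ^ 3 := by ring
    linarith
  obtain ⟨d0, d1, d2, d3⟩ := Pool.Agent.Helper16.BR.digits zs za zm
  obtain ⟨T, hT⟩ : ∃ T : ℕ, T = s + (n + 2) * (a + (n + 2) * m) := ⟨_, rfl⟩
  rw [← hT] at d0 d1 d2 d3
  refine ⟨T, d0, d1, d2, d3, ?_⟩
  obtain ⟨r1, r2, r3, r4, r5⟩ := realsU hK1 hur hul (by linarith : (0 : ℝ) ≤ s) ha0 hx0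
    (hx.trans hC3) (g2.trans hC2) (g3.trans hC2) (g4.trans hC2)
  have hlT : lT n T = l + 4 := by
    unfold lT
    rw [d3, hl, hu']
  obtain ⟨β, hβ⟩ : ∃ β : ℕ, β = n / ((l + 4) * (l + 4)) := ⟨_, rfl⟩
  have hbU : betU n T = β := by
    unfold betU
    rw [hlT, hβ]
  obtain ⟨e, he⟩ : ∃ e : ℕ, e = Nat.log 2 (β / (2 * (a + 1))) := ⟨_, rfl⟩
  have heU : eU n T = e := by
    unfold eU
    rw [hbU, d2, he]
  obtain ⟨k, hk⟩ : ∃ k : ℕ, k = n / (l + 4) + 1 := ⟨_, rfl⟩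
  have hkU : KU n T = k := by
    unfold KU
    rw [hlT, hk]
  -- the size of `β`
  have hβ1 : (n : ℝ) < ((β : ℝ) + 1) * (4 * (l : ℝ) ^ 2) := by
    have e1 : n < (β + 1) * ((l + 4) * (l + 4)) := by
      have e2 : n / ((l + 4) * (l + 4)) < β + 1 := by omega
      exact (Nat.div_lt_iff_lt_mul (by positivity)).1 e2
    have e3 : (n : ℝ) < ((β : ℝ) + 1) * (((l : ℝ) + 4) * ((l : ℝ) + 4)) := by exact_mod_cast e1
    have e4 : ((l : ℝ) + 4) * ((l : ℝ) + 4) ≤ 4 * (l : ℝ) ^ 2 := by nlinarith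
    have e5 : ((β : ℝ) + 1) * (((l : ℝ) + 4) * ((l : ℝ) + 4)) ≤
        ((β : ℝ) + 1) * (4 * (l : ℝ) ^ 2) := mul_le_mul_of_nonneg_left e4 (by positivity)
    linarith
  have hcmp : ∀ X : ℝ, X * (4 * (l : ℝ) ^ 2) ≤ n → X < (β : ℝ) + 1 := by
    intro X hX
    have h := lt_of_le_of_lt hX hβ1
    exact lt_of_mul_lt_mul_right h (by positivity)
  have b1 : 2 * (s + 1) < β := by
    have := hcmp _ r2
    have h : ((2 * (s + 1) : ℕ) : ℝ) < (β : ℕ) := by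
      push_cast
      linarith
    exact_mod_cast h
  have b2 : 2 * (a + 1) < β := by
    have := hcmp _ r3
    have h : ((2 * (a + 1) : ℕ) : ℝ) < (β : ℕ) := by
      push_cast
      linarith
    exact_mod_cast h
  have b3 : m + 2 < β := by
    have := hcmp _ r4
    have h : ((m + 2 : ℕ) : ℝ) < (β : ℕ) := by
      push_cast
      linarith
    exact_mod_cast h
  -- `2 ^ e`
  have hquot : 1 ≤ β / (2 * (a + 1)) := by
    rw [Nat.one_le_div_iff (by omega)]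
    omega
  have c1 : 2 ^ e ≤ β / (2 * (a + 1)) := by
    rw [he]
    exact Nat.pow_log_le_self 2 (by omega)
  have c2 : (2 * (a + 1)) * 2 ^ e ≤ β := by
    have e1 := Nat.div_mul_le_self β (2 * (a + 1))
    have e2 : 2 ^ e * (2 * (a + 1)) ≤ β / (2 * (a + 1)) * (2 * (a + 1)) :=
      Nat.mul_le_mul_right _ c1
    calc (2 * (a + 1)) * 2 ^ e = 2 ^ e * (2 * (a + 1)) := by ring
      _ ≤ _ := e2
      _ ≤ β := e1
  have c3 : β < 4 * (a + 1) * 2 ^ e := by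
    have e1 : β / (2 * (a + 1)) < 2 ^ (e + 1) := by
      rw [he]
      exact Nat.lt_pow_succ_log_self (by norm_num) _
    have e2 : β < 2 ^ (e + 1) * (2 * (a + 1)) := (Nat.div_lt_iff_lt_mul (by omega)).1 e1
    calc β < 2 ^ (e + 1) * (2 * (a + 1)) := e2
      _ = 4 * (a + 1) * 2 ^ e := by ring
  refine ⟨?_, ?_⟩
  · unfold okU
    rw [hbU, heU, d1, d2, d3]
    unfold le01
    have e1 : s + 1 + (a + 1) * 2 ^ e ≤ β := by
      have e3 : 2 * (a + 1) * 2 ^ e = 2 * ((a + 1) * 2 ^ e) := by ring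
      rw [e3] at c2
      omega
    have e2 : m + 2 ≤ β := by omega
    rw [if_pos e1, if_pos e2]
  · rw [hkU, heU]
    by_contra hcon
    push Not at hcon
    have hkl : (n : ℝ) < (k : ℝ) * (2 * l) := by
      have e1 : n < k * (l + 4) := by
        have e2 : n / (l + 4) < k := by omega
        exact (Nat.div_lt_iff_lt_mul (by omega)).1 e2
      have e3 : (n : ℝ) < (k : ℝ) * ((l : ℝ) + 4) := by exact_mod_cast e1
      have e4 : (k : ℝ) * ((l : ℝ) + 4) ≤ (k : ℝ) * (2 * l) :=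
        mul_le_mul_of_nonneg_left (by linarith) (Nat.cast_nonneg _)
      linarith
    have hβ2 : (n : ℝ) < 32 * ((a : ℝ) + 1) * 2 ^ e * l ^ 2 := by
      have e1 : ((β : ℝ) + 1) ≤ 2 * β := by
        have : (1 : ℝ) ≤ β := by
          have : 1 ≤ β := by omega
          exact_mod_cast this
        linarith
      have e2 : (β : ℝ) < 4 * ((a : ℝ) + 1) * 2 ^ e := by exact_mod_cast c3
      have e3 : ((β : ℝ) + 1) * (4 * (l : ℝ) ^ 2) ≤ (2 * β) * (4 * (l : ℝ) ^ 2) :=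
        mul_le_mul_of_nonneg_right e1 (by positivity)
      have e4 : (2 * (β : ℝ)) * (4 * (l : ℝ) ^ 2) ≤
          (2 * (4 * ((a : ℝ) + 1) * 2 ^ e)) * (4 * (l : ℝ) ^ 2) :=
        mul_le_mul_of_nonneg_right (by linarith) (by positivity)
      have e5 : (2 * (4 * ((a : ℝ) + 1) * 2 ^ e)) * (4 * (l : ℝ) ^ 2) =
          32 * ((a : ℝ) + 1) * 2 ^ e * l ^ 2 := by ring
      linarith
    have hn0 : (0 : ℝ) < n := by linarith
    have e1 : (n : ℝ) ^ 2 < ((k : ℝ) * (2 * l)) * (32 * ((a : ℝ) + 1) * 2 ^ e * l ^ 2) := by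
      have e2 : (n : ℝ) ^ 2 = n * n := by ring
      rw [e2]
      exact mul_lt_mul'' hkl hβ2 hn0.le hn0.le
    have e3 : ((k : ℝ) * (2 * l)) * (32 * ((a : ℝ) + 1) * 2 ^ e * l ^ 2) =
        64 * (((k : ℝ) * 2 ^ e) * ((a : ℝ) + 1) * l ^ 3) := by ring
    have e4 : ((k : ℝ) * 2 ^ e) ≤ x := by
      have : (k * 2 ^ e : ℕ) ≤ x := hcon.le
      exact_mod_cast this
    have e5 : ((k : ℝ) * 2 ^ e) * ((a : ℝ) + 1) * l ^ 3 ≤ x * ((a : ℝ) + 1) * l ^ 3 :=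
      mul_le_mul_of_nonneg_right (mul_le_mul_of_nonneg_right e4 (by linarith)) (by positivity)
    rw [e3] at e1
    linarith

end Pool.Agent.Helper16.UR
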