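import Pool.Agent.Helper53.UR.Goals

/-!
# PROJECT UR: packet FI6 (the invariant in the main loop)
-/

set_option autoImplicit false

namespace Pool.Agent.Helper16.UR

open Pool.Agent.Helper53.UR
open Pool.Agent.Helper1.TE (Gad app cif NumMach codeB)
open Pool.Agent.Helper65.LinSpace (dig nrec ifz eq01 le01 lt01 Ctx LS num)
open Pool.Agent.Helper53.CTG (De De.k De.m De.e De.f De.v De.i De.T sub root Nt Hb Et Eb Fb Gb Pb
  bigT bigX bigS bigA gadC ev op runs toF dec)

namespace FI6

theorem cif_zero {β : Type} {c : ℕ} (h : c = 0) (x y : β) : cif c x y = x := if_pos h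

theorem cif_ne {β : Type} {c : ℕ} (h : c ≠ 0) (x y : β) : cif c x y = y := if_neg h

theorem nx_eq {β : Type} [Ctx β] (M : UM β) (w : List Bool) (o : β) (ρ u τ g : ℕ) (D : De)
    (X S A γ : ℕ) :
    M.mach.nx w (mainS o ρ u τ g D X S A) γ =
      cif (γ * (1 - M.gq (mainS o ρ u τ g D X S A)))
      (cif (Nt (M.N o) (M.q o) - u)
        (cif (Nt (M.N o) (M.q o) + 3 * M.b o - u)
          (cif (bigT (M.tst o ρ) (M.b o) (M.c o) (M.W o) D g (M.wV o D A g) X A) rejS
            (cif ((τ + 1) / 13 ^ Nt (M.N o) (M.q o))
              (mainS o ρ 0 (τ + 1) 0 (root (M.N o) (M.q o))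
                (bigX (M.N o) (M.q o) (M.b o) (M.c o) (M.W o) D g (M.wV o D A g) X S A)
                (bigS (M.N o) (M.q o) (M.b o) (M.c o) (M.W o) D (M.wV o D A g) X S A)
                (bigA (M.c o) (M.W o) D (M.wV o D A g) A))
              (ctS (M.d o ρ))))
          (mainS o ρ (u + 1) τ (2 * g + γ) D X S A))
        (mainS o ρ (u + 1) τ g
          (sub (M.q o) D (Nt (M.N o) (M.q o) - 1 - u)
            (dig 13 τ (Nt (M.N o) (M.q o) - 1 - u))) X S A))
      rejS := rfl

theorem tst_ne {β : Type} (M : UM β) (o : β) (ρ v : ℕ) (h : M.tst o ρ v ≠ 0) :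
    lt01 0 (M.ts o v) = ρ := by
  by_contra hne
  apply h
  unfold UM.tst eq01
  exact if_neg hne

end FI6

open FI6

theorem gFI6 : GoalFI6 := by
  intro hStep hAcc β _ M hM w x γ hγ hI hmo
  cases hI with
  | rej => exact absurd hmo (by change ¬ (4 = 2); decide)
  | m0 u hu => exact absurd hmo (by change ¬ (0 = 2); decide)
  | m1 i h => exact absurd hmo (by change ¬ (1 = 2); decide)
  | m3 h => exact absurd hmo (by change ¬ (3 = 2); decide)
  | m2 i ρ u τ g D X S A o ho h hρ hτ hu hg hD hX hS hC =>
    rw [nx_eq]
    by_cases hγ0 : γ * (1 - M.gq (mainS o ρ u τ g D X S A)) = 0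
    · rw [cif_zero hγ0]
      by_cases hu1 : Nt (M.N o) (M.q o) - u = 0
      · rw [cif_zero hu1]
        by_cases hu2 : Nt (M.N o) (M.q o) + 3 * M.b o - u = 0
        · -- a step of the algorithm
          rw [cif_zero hu2]
          have hu' : u = Nt (M.N o) (M.q o) + 3 * M.b o := by omega
          subst hu'
          have hg' : g < 8 ^ M.b o := by
            rw [show Nt (M.N o) (M.q o) + 3 * M.b o - Nt (M.N o) (M.q o) = 3 * M.b o by omega,
              pow_mul] at hg
            exact hg
          have hD' : D = dec (M.q o) (root (M.N o) (M.q o)) (Nt (M.N o) (M.q o)) τ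
              (Nt (M.N o) (M.q o)) := by
            rw [min_eq_right (by omega)] at hD
            exact hD
          obtain ⟨-, hs2⟩ := hStep M hM o ρ τ g X S A hτ hg' hX hS hC D hD'
          by_cases hbT : bigT (M.tst o ρ) (M.b o) (M.c o) (M.W o) D g (M.wV o D A g) X A = 0
          · rw [cif_zero hbT]
            exact UM.Inv.rej
          · rw [cif_ne hbT]
            obtain ⟨s', -, hC', hlt⟩ := hs2 hbT
            by_cases hq : (τ + 1) / 13 ^ Nt (M.N o) (M.q o) = 0
            · rw [cif_zero hq]
              have hq' : τ + 1 < 13 ^ Nt (M.N o) (M.q o) := by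
                rcases Nat.div_eq_zero_iff.1 hq with h0 | h0
                · exact absurd h0 (by positivity)
                · exact h0
              obtain ⟨hs, hX', hS'⟩ := hlt hq'
              rw [hs] at hC'
              refine UM.Inv.m2 i ρ 0 (τ + 1) 0 _ _ _ _ o ho h hρ hq' (by omega) (by positivity)
                ?_ hX' hS' hC'
              rw [Nat.zero_min]
              rfl
            · rw [cif_ne hq]
              have hq' : τ + 1 = 13 ^ Nt (M.N o) (M.q o) := by
                have h2 : ¬ (τ + 1 < 13 ^ Nt (M.N o) (M.q o)) := fun h3 =>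
                  hq (Nat.div_eq_of_lt h3)
                omega
              rw [hq'] at hC'
              have hb : M.bit o = ρ :=
                tst_ne M o ρ _ ((hAcc M hM o ρ).1.1 ⟨s', hC'⟩)
              have ho' : M.d o ρ = M.orun (num w) (i + 1) := by
                rw [← hb, ho]
                rfl
              rw [ho']
              exact UM.Inv.m1 (i + 1) fun j hj => h j (by omega)
        · -- guessing a bit
          rw [cif_ne hu2]
          refine UM.Inv.m2 i ρ (u + 1) τ (2 * g + γ) D X S A o ho h hρ hτ (by omega) ?_ ?_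
            hX hS hC
          · rw [show u + 1 - Nt (M.N o) (M.q o) = (u - Nt (M.N o) (M.q o)) + 1 by omega, pow_succ]
            omega
          · rw [min_eq_right (by omega)] at hD ⊢
            exact hD
      · -- one more digit
        rw [cif_ne hu1]
        refine UM.Inv.m2 i ρ (u + 1) τ g _ X S A o ho h hρ hτ (by omega) ?_ ?_ hX hS hC
        · rw [show u + 1 - Nt (M.N o) (M.q o) = u - Nt (M.N o) (M.q o) by omega]
          exact hg
        · rw [min_eq_left (by omega)] at hD ⊢
          rw [hD]
          rfl
    · rw [cif_ne hγ0]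
      exact UM.Inv.rej

end Pool.Agent.Helper16.UR
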